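import Mathlib

namespace Pool.Agent.Results.MP_a15e14_gt.PointPairMetric

open Metric

/-- Three-dimensional Euclidean space. -/
abbrev E3 : Type := EuclideanSpace ℝ (Fin 3)

/-- The axis `Z = {(0, 0, t) : t ∈ ℝ}`. -/
def Z : Set E3 := {x | x 0 = 0 ∧ x 1 = 0}

/-- The domain `G = ℝ³ ∖ Z`. -/
def G : Set E3 := Zᶜ

/-- The point pair function of a set `D`:
`p_D(x, y) = |x - y| / √(|x - y|² + 4 d_D(x) d_D(y))`, where `d_D` is the Euclidean distance
to the topological boundary of `D`. -/
noncomputable def pointPair (D : Set E3) (x y : E3) : ℝ :=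
  dist x y / Real.sqrt (dist x y ^ 2 + 4 * infDist x (frontier D) * infDist y (frontier D))

lemma isClosed_Z : IsClosed Z := by
  have h0 : Continuous fun x : E3 => x 0 := by fun_prop
  have h1 : Continuous fun x : E3 => x 1 := by fun_prop
  exact (isClosed_eq h0 continuous_const).inter (isClosed_eq h1 continuous_const)

lemma interior_Z : interior Z = ∅ := by
  rw [Set.eq_empty_iff_forall_notMem]
  intro x hx
  rw [mem_interior_iff_mem_nhds, Metric.mem_nhds_iff] at hx
  obtain ⟨ε, hε, hb⟩ := hx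
  have hxZ : x ∈ Z := hb (mem_ball_self hε)
  have hy : x + EuclideanSpace.single 0 (ε / 2) ∈ ball x ε := by
    rw [mem_ball, dist_eq_norm]
    simp [abs_of_pos hε]
    linarith
  have := (hb hy).1
  have hx0 := hxZ.1
  simp [hx0] at this
  linarith

lemma frontier_G : frontier G = Z := by
  have : G = Zᶜ := rfl
  rw [this, frontier_compl, isClosed_Z.frontier_eq, interior_Z, Set.sdiff_empty]

/-- The distance to the axis is `√(x₀² + x₁²)`. -/
lemma infDist_Z (x : E3) : infDist x Z = Real.sqrt (x 0 ^ 2 + x 1 ^ 2) := by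
  have hne : Z.Nonempty := ⟨0, by simp [Z]⟩
  apply le_antisymm
  · have hp : EuclideanSpace.single 2 (x 2) ∈ Z := by simp [Z]
    refine (infDist_le_dist_of_mem hp).trans ?_
    rw [EuclideanSpace.dist_eq]
    apply Real.sqrt_le_sqrt
    simp [Fin.sum_univ_three, Real.dist_eq, sq_abs]
  · rw [le_infDist hne]
    intro y hy
    rw [EuclideanSpace.dist_eq]
    apply Real.sqrt_le_sqrt
    obtain ⟨h0, h1⟩ := hy
    simp [Fin.sum_univ_three, Real.dist_eq, sq_abs, h0, h1]
    positivity

lemma infDist_frontier_G (x : E3) :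
    infDist x (frontier G) = Real.sqrt (x 0 ^ 2 + x 1 ^ 2) := by
  rw [frontier_G, infDist_Z]

/-- The reflection of `z` in the axis. -/
noncomputable def refl (z : E3) : E3 := !₂[-z 0, -z 1, z 2]

lemma dist_refl (z : E3) : dist z (refl z) = 2 * infDist z (frontier G) := by
  rw [infDist_frontier_G, EuclideanSpace.dist_eq,
    show (2 : ℝ) = Real.sqrt (2 ^ 2) by rw [Real.sqrt_sq (by norm_num)],
    ← Real.sqrt_mul (by norm_num)]
  congr 1
  simp [Fin.sum_univ_three, Real.dist_eq, sq_abs, refl]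
  ring

lemma dist_refl_le (y z : E3) :
    dist y (refl z) ≤
      Real.sqrt (dist y z ^ 2 + 4 * infDist y (frontier G) * infDist z (frontier G)) := by
  rw [infDist_frontier_G, infDist_frontier_G, EuclideanSpace.dist_eq]
  apply Real.sqrt_le_sqrt
  rw [EuclideanSpace.dist_eq, Real.sq_sqrt (by positivity)]
  have key : y 0 * z 0 + y 1 * z 1 ≤
      Real.sqrt (y 0 ^ 2 + y 1 ^ 2) * Real.sqrt (z 0 ^ 2 + z 1 ^ 2) := by
    rw [← Real.sqrt_mul (by positivity)]
    apply Real.le_sqrt_of_sq_le
    nlinarith [sq_nonneg (y 0 * z 1 - y 1 * z 0)]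
  simp [Fin.sum_univ_three, Real.dist_eq, sq_abs, refl]
  nlinarith [key]

/-- The consequence of Ptolemy's inequality. -/
lemma ptolemy (x y z : E3) :
    dist x y * (2 * infDist z (frontier G)) ≤
      dist x z * Real.sqrt (dist z y ^ 2 + 4 * infDist z (frontier G) * infDist y (frontier G)) +
      dist z y * Real.sqrt (dist x z ^ 2 + 4 * infDist x (frontier G) * infDist z (frontier G)) := by
  have h := EuclideanGeometry.mul_dist_le_mul_dist_add_mul_dist x z y (refl z)
  rw [dist_refl] at h
  have h1 := dist_refl_le y z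
  have h2 := dist_refl_le x z
  rw [show dist y z = dist z y from dist_comm y z,
    show 4 * infDist y (frontier G) * infDist z (frontier G) =
      4 * infDist z (frontier G) * infDist y (frontier G) by ring] at h1
  calc _ ≤ dist x z * dist y (refl z) + dist z y * dist x (refl z) := h
    _ ≤ _ := by gcongr

/-- The elementary inequality: if `w ≤ u √(1 + v²) + v √(1 + u²)` then
`w / √(1 + w²) ≤ u / √(1 + u²) + v / √(1 + v²)`. -/
lemma elem {u v w : ℝ} (hu : 0 ≤ u) (hv : 0 ≤ v) (hw : 0 ≤ w)
    (h : w ≤ u * Real.sqrt (1 + v ^ 2) + v * Real.sqrt (1 + u ^ 2)) :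
    w / Real.sqrt (1 + w ^ 2) ≤ u / Real.sqrt (1 + u ^ 2) + v / Real.sqrt (1 + v ^ 2) := by
  set U := Real.sqrt (1 + u ^ 2) with hU
  set V := Real.sqrt (1 + v ^ 2) with hV
  have hU0 : 0 < U := Real.sqrt_pos.mpr (by positivity)
  have hV0 : 0 < V := Real.sqrt_pos.mpr (by positivity)
  have hUU : U ^ 2 = 1 + u ^ 2 := Real.sq_sqrt (by positivity)
  have hVV : V ^ 2 = 1 + v ^ 2 := Real.sq_sqrt (by positivity)
  set W := u * V + v * U with hW
  have hW0 : 0 ≤ W := by positivity
  have hWW : 1 + W ^ 2 = (U * V + u * v) ^ 2 := by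
    rw [hW]; nlinarith [hUU, hVV]
  have hsW : Real.sqrt (1 + W ^ 2) = U * V + u * v := by
    rw [hWW, Real.sqrt_sq (by positivity)]
  have h1 : w / Real.sqrt (1 + w ^ 2) ≤ W / Real.sqrt (1 + W ^ 2) := by
    rw [div_le_div_iff₀ (Real.sqrt_pos.mpr (by positivity)) (Real.sqrt_pos.mpr (by positivity))]
    have e1 : w * Real.sqrt (1 + W ^ 2) = Real.sqrt (w ^ 2 * (1 + W ^ 2)) := by
      rw [Real.sqrt_mul (by positivity), Real.sqrt_sq hw]
    have e2 : W * Real.sqrt (1 + w ^ 2) = Real.sqrt (W ^ 2 * (1 + w ^ 2)) := by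
      rw [Real.sqrt_mul (by positivity), Real.sqrt_sq hW0]
    rw [e1, e2]
    apply Real.sqrt_le_sqrt
    nlinarith [mul_self_le_mul_self hw h]
  refine h1.trans ?_
  rw [hsW]
  have h2 : u / U + v / V = W / (U * V) := by
    rw [hW]; field_simp
  rw [h2]
  apply div_le_div_of_nonneg_left hW0 (by positivity)
  nlinarith [mul_nonneg hu hv]

lemma infDist_pos {x : E3} (hx : x ∈ G) : 0 < infDist x (frontier G) := by
  rw [infDist_frontier_G]
  apply Real.sqrt_pos.mpr
  by_contra hcon
  apply hx
  have h0 := sq_nonneg (x 0)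
  have h1 := sq_nonneg (x 1)
  constructor
  · apply pow_eq_zero_iff (two_ne_zero) |>.mp; linarith
  · apply pow_eq_zero_iff (two_ne_zero) |>.mp; linarith

lemma pointPair_eq {x y : E3} (hx : x ∈ G) (hy : y ∈ G) :
    pointPair G x y =
      (dist x y / (2 * Real.sqrt (infDist x (frontier G) * infDist y (frontier G)))) /
      Real.sqrt (1 + (dist x y /
        (2 * Real.sqrt (infDist x (frontier G) * infDist y (frontier G)))) ^ 2) := by
  have hx' := infDist_pos hx
  have hy' := infDist_pos hy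
  unfold pointPair
  set a := infDist x (frontier G)
  set b := infDist y (frontier G)
  have hab : 0 < a * b := mul_pos hx' hy'
  have hs : 0 < Real.sqrt (a * b) := Real.sqrt_pos.mpr hab
  have hss : Real.sqrt (a * b) ^ 2 = a * b := Real.sq_sqrt hab.le
  have e : dist x y ^ 2 + 4 * a * b =
      (2 * Real.sqrt (a * b)) ^ 2 * (1 + (dist x y / (2 * Real.sqrt (a * b))) ^ 2) := by
    field_simp
    rw [hss]; ring
  rw [e, Real.sqrt_mul (by positivity), Real.sqrt_sq (by positivity)]
  field_simp

lemma triangle {x y z : E3} (hx : x ∈ G) (hy : y ∈ G) (hz : z ∈ G) :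
    pointPair G x y ≤ pointPair G x z + pointPair G z y := by
  rw [pointPair_eq hx hy, pointPair_eq hx hz, pointPair_eq hz hy]
  have hx' := infDist_pos hx
  have hy' := infDist_pos hy
  have hz' := infDist_pos hz
  apply elem (by positivity) (by positivity) (by positivity)
  have hp := ptolemy x y z
  set a := infDist x (frontier G)
  set b := infDist y (frontier G)
  set c := infDist z (frontier G)
  have hc : Real.sqrt c ^ 2 = c := Real.sq_sqrt hz'.le
  have hsa : 0 < Real.sqrt a := Real.sqrt_pos.mpr hx'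
  have hsb : 0 < Real.sqrt b := Real.sqrt_pos.mpr hy'
  have hsc : 0 < Real.sqrt c := Real.sqrt_pos.mpr hz'
  have e1 : Real.sqrt (dist z y ^ 2 + 4 * c * b) =
      (2 * (Real.sqrt c * Real.sqrt b)) *
        Real.sqrt (1 + (dist z y / (2 * (Real.sqrt c * Real.sqrt b))) ^ 2) := by
    rw [← Real.sqrt_sq (show 0 ≤ 2 * (Real.sqrt c * Real.sqrt b) by positivity),
      ← Real.sqrt_mul (by positivity)]
    congr 1
    rw [Real.sqrt_sq (show 0 ≤ 2 * (Real.sqrt c * Real.sqrt b) by positivity)]
    have hb2 : Real.sqrt b ^ 2 = b := Real.sq_sqrt hy'.le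
    field_simp
    rw [hc, hb2]; ring
  have e2 : Real.sqrt (dist x z ^ 2 + 4 * a * c) =
      (2 * (Real.sqrt a * Real.sqrt c)) *
        Real.sqrt (1 + (dist x z / (2 * (Real.sqrt a * Real.sqrt c))) ^ 2) := by
    rw [← Real.sqrt_sq (show 0 ≤ 2 * (Real.sqrt a * Real.sqrt c) by positivity),
      ← Real.sqrt_mul (by positivity)]
    congr 1
    rw [Real.sqrt_sq (show 0 ≤ 2 * (Real.sqrt a * Real.sqrt c) by positivity)]
    have ha2 : Real.sqrt a ^ 2 = a := Real.sq_sqrt hx'.le
    field_simp
    rw [hc, ha2]; ring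
  rw [e1, e2] at hp
  rw [Real.sqrt_mul hx'.le, Real.sqrt_mul hx'.le, Real.sqrt_mul hz'.le]
  set P := Real.sqrt (1 + (dist z y / (2 * (Real.sqrt c * Real.sqrt b))) ^ 2)
  set Q := Real.sqrt (1 + (dist x z / (2 * (Real.sqrt a * Real.sqrt c))) ^ 2)
  have e3 : dist x y / (2 * (Real.sqrt a * Real.sqrt b)) =
      (dist x y * (2 * c)) / (4 * (Real.sqrt a * Real.sqrt b) * c) := by
    field_simp; ring
  have e4 : dist x z / (2 * (Real.sqrt a * Real.sqrt c)) * P +
      dist z y / (2 * (Real.sqrt c * Real.sqrt b)) * Q =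
      (dist x z * (2 * (Real.sqrt c * Real.sqrt b) * P) +
        dist z y * (2 * (Real.sqrt a * Real.sqrt c) * Q)) /
        (4 * (Real.sqrt a * Real.sqrt b) * c) := by
    have : (4 * (Real.sqrt a * Real.sqrt b) * c) =
        4 * (Real.sqrt a * Real.sqrt b) * (Real.sqrt c ^ 2) := by rw [hc]
    rw [this]
    field_simp
    ring
  rw [e3, e4]
  gcongr

/-- **The point pair function is a metric on the complement of a line in `ℝ³`.**
For `G = ℝ³ ∖ Z`, the point pair function `p_G` is nonnegative, vanishes exactly on the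
diagonal, is symmetric and satisfies the triangle inequality on `G`. -/
theorem result :
    (∀ x ∈ G, ∀ y ∈ G, 0 ≤ pointPair G x y ∧ (pointPair G x y = 0 ↔ x = y) ∧
      pointPair G x y = pointPair G y x) ∧
    (∀ x ∈ G, ∀ y ∈ G, ∀ z ∈ G, pointPair G x y ≤ pointPair G x z + pointPair G z y) := by
  refine ⟨fun x hx y hy => ⟨?_, ?_, ?_⟩, fun x hx y hy z hz => triangle hx hy hz⟩
  · unfold pointPair; positivity
  · have hx' := infDist_pos hx
    have hy' := infDist_pos hy
    unfold pointPair
    rw [div_eq_zero_iff, Real.sqrt_eq_zero (by positivity), dist_eq_zero]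
    constructor
    · rintro (h | h)
      · exact h
      · have : 0 < dist x y ^ 2 + 4 * infDist x (frontier G) * infDist y (frontier G) := by
          positivity
        linarith
    · exact fun h => Or.inl h
  · unfold pointPair
    rw [dist_comm x y]
    congr 2
    ring

end Pool.Agent.Results.MP_a15e14_gt.PointPairMetric
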